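import Mathlib
import Pool.Agent.Y494.PN.Defs

/-!
# The numbers of vertices of the star product
-/

set_option autoImplicit false

namespace Pool.Agent.Y210.PN

open Polynomial Pool.Agent.Results.MP_daa8b9_co.PenroseMinusOne Pool.Agent.Y494.PN

variable {E : Type} [Fintype E] [DecidableEq E]


theorem card_cubic {H : Type} [Fintype H] (π : Equiv.Perm H)
    (hπ : ∀ h, π (π (π h)) = h ∧ π h ≠ h) :
    3 * Nat.card (Quotient (Equiv.Perm.SameCycle.setoid π)) = Nat.card H := by
  classical
  have hsc : ∀ h k : H, π.SameCycle h k ↔ k = h ∨ k = π h ∨ k = π (π h) := by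
    intro h k
    constructor
    · rintro ⟨i, rfl⟩
      have key : ∀ i : ℤ, ∀ h : H, (π ^ i) h = h ∨ (π ^ i) h = π h ∨ (π ^ i) h = π (π h) := by
        intro i
        induction i using Int.induction_on with
        | zero => intro h; simp
        | succ i ih =>
          intro h
          rw [zpow_add_one, Equiv.Perm.mul_apply]
          rcases ih (π h) with h1 | h1 | h1
          · exact Or.inr (Or.inl h1)
          · exact Or.inr (Or.inr h1)
          · left; rw [h1, (hπ h).1]
        | pred i ih =>
          intro h
          rw [zpow_sub_one, Equiv.Perm.mul_apply]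
          have h2 : π⁻¹ h = π (π h) := by
            rw [Equiv.Perm.inv_eq_iff_eq, (hπ h).1]
          rw [h2]
          rcases ih (π (π h)) with h1 | h1 | h1
          · exact Or.inr (Or.inr h1)
          · left; rw [h1, (hπ h).1]
          · right; left; rw [h1, (hπ h).1]
      exact key i h
    · rintro (rfl | rfl | rfl)
      · exact Equiv.Perm.SameCycle.refl _ _
      · exact ⟨1, by simp⟩
      · exact ⟨2, by rw [zpow_two, Equiv.Perm.mul_apply]⟩
  set Q := Quotient (Equiv.Perm.SameCycle.setoid π) with hQ
  have : Fintype Q := Fintype.ofFinite Q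
  have hfib : ∀ q : Q, (Finset.univ.filter fun h : H => (Quotient.mk _ h : Q) = q).card = 3 := by
    intro q
    induction q using Quotient.ind with
    | _ h =>
      have hset : (Finset.univ.filter fun k : H =>
          (Quotient.mk (Equiv.Perm.SameCycle.setoid π) k : Q) = Quotient.mk _ h) =
          {h, π h, π (π h)} := by
        ext k
        rw [Finset.mem_filter, Finset.mem_insert, Finset.mem_insert, Finset.mem_singleton]
        constructor
        · rintro ⟨-, hk⟩
          have h3 : π.SameCycle k h := Quotient.exact hk
          exact (hsc h k).1 h3.symm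
        · intro hk
          exact ⟨Finset.mem_univ _, Quotient.sound ((hsc h k).2 hk).symm⟩
      rw [hset, Finset.card_insert_of_notMem, Finset.card_insert_of_notMem,
        Finset.card_singleton]
      · rw [Finset.mem_singleton]
        intro h4
        exact (hπ h).2 (π.injective h4).symm
      · rw [Finset.mem_insert, Finset.mem_singleton]
        rintro (h4 | h4)
        · exact (hπ h).2 h4.symm
        · have h5 := congrArg π h4
          rw [(hπ h).1] at h5
          exact (hπ h).2 h5
  have hsum := Finset.card_eq_sum_card_fiberwise (s := (Finset.univ : Finset H))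
    (t := (Finset.univ : Finset Q)) (f := fun h : H => (Quotient.mk _ h : Q))
    (fun h _ => Finset.mem_coe.2 (Finset.mem_univ _))
  rw [Finset.sum_congr rfl (fun q _ => hfib q), Finset.sum_const, Finset.card_univ,
    Finset.card_univ, smul_eq_mul] at hsum
  rw [Nat.card_eq_fintype_card, Nat.card_eq_fintype_card, hsum, mul_comm]

theorem star_vert (G : PlaneCubicGraph E) (p : E × Bool)
    (hc : ∀ z, starRot G p (starRot G p (starRot G p z)) = z ∧ starRot G p z ≠ z) :
    Nat.card (Quotient (Equiv.Perm.SameCycle.setoid (starRot G p))) =
      Nat.card (Quotient (Equiv.Perm.SameCycle.setoid G.rot)) + 12 := by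
  have h1 := card_cubic (starRot G p) hc
  have h2 := card_cubic G.rot G.cubic
  have h3 : Nat.card ((E ⊕ Fin 18) × Bool) = Nat.card (E × Bool) + 36 := by
    simp only [Nat.card_eq_fintype_card, Fintype.card_prod, Fintype.card_sum, Fintype.card_bool,
      Fintype.card_fin]
    ring
  omega

end Pool.Agent.Y210.PN
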